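import Pool.Agent.V11233.MT.Final

/-!
# Two types of processors suffice for modular real-time trellis automata

Definitions (trellis automaton, output of a node, language, number of types, modularity):
`Pool/Agent/V11233/MT/Def.lean`.

Idea. Let `P = p^K`, `Q = q^K`. In a `P × Q` block the labels are determined by the label of the
block on the coarse level. The new automaton has type bits: in every block the first row consists of
ones, no other row has two adjacent ones, the second row marks the second column, and the other rows
encode the labels of all coarse neighbours up to a distance that grows with `P/Q` and `Q/P`. There
is room for this when `K` is large. From the bits in a triangle of depth `2(P+Q)` below a node one
can read all labels in this triangle. A node of height less than `2(P+Q)` only collects the input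
letters and the bits below it, a higher node also simulates the output of the old automaton. The new
labelling is again modular, with the parameters `P, Q`.
-/

set_option autoImplicit false

namespace Pool.Agent.Results.MP_bd4c56_lc.TwoTypes

open Pool.Agent.V11233.MT

/-- For every modular real-time trellis automaton there is one that accepts the same language and
has at most two types of processors. -/
theorem result (S : Type) [Finite S] (A : RTTA S) (hA : A.Modular) :
    ∃ B : RTTA S, B.Modular ∧ B.lang = A.lang ∧ B.types ≤ 2 :=
  main A hA

end Pool.Agent.Results.MP_bd4c56_lc.TwoTypes
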